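import Pool.Agent.Helper56_RHO3.RMB

/-!
# MP_ca8ef3_an, stage 2, row QDF (helper56): functionals
-/

set_option autoImplicit false

namespace Pool.Agent.RHO.H56c

open Finset

theorem sum_symmDiff_two {E M : Type} [DecidableEq E] [AddCommGroup M] (h2 : ∀ x : M, x + x = 0)
    (Z Z' : Finset E) (f : E → M) :
    ∑ e ∈ symmDiff Z Z', f e = ∑ e ∈ Z, f e + ∑ e ∈ Z', f e := by
  have h1 : symmDiff Z Z' = (Z \ Z') ∪ (Z' \ Z) := rfl
  have hd : Disjoint (Z \ Z') (Z' \ Z) := by
    rw [Finset.disjoint_left]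
    intro a ha hb
    exact (mem_sdiff.1 hb).2 (mem_sdiff.1 ha).1
  rw [h1, sum_union hd]
  have h3 : ∑ e ∈ Z, f e = ∑ e ∈ Z \ Z', f e + ∑ e ∈ Z ∩ Z', f e := by
    rw [add_comm]
    exact (sum_inter_add_sum_sdiff Z Z' f).symm
  have h4 : ∑ e ∈ Z', f e = ∑ e ∈ Z' \ Z, f e + ∑ e ∈ Z ∩ Z', f e := by
    rw [add_comm, inter_comm]
    exact (sum_inter_add_sum_sdiff Z' Z f).symm
  rw [h3, h4]
  have h5 := h2 (∑ e ∈ Z ∩ Z', f e)
  calc ∑ e ∈ Z \ Z', f e + ∑ e ∈ Z' \ Z, f e
      = ∑ e ∈ Z \ Z', f e + ∑ e ∈ Z' \ Z, f e + (∑ e ∈ Z ∩ Z', f e + ∑ e ∈ Z ∩ Z', f e) := by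
        rw [h5, add_zero]
    _ = _ := by abel

section

variable {ι : Type} [Fintype ι] [DecidableEq ι]

theorem pr_addl (a b f : Fn ι) : pr (a + b) f = pr a f + pr b f := by
  simp only [pr, Pi.add_apply, add_mul, Finset.sum_add_distrib]

theorem pr_subl (a b f : Fn ι) : pr (a - b) f = pr a f - pr b f := by
  simp only [pr, Pi.sub_apply, sub_mul, Finset.sum_sub_distrib]

theorem pr_addr (a f g : Fn ι) : pr a (f + g) = pr a f + pr a g := by
  simp only [pr, Pi.add_apply, mul_add, Finset.sum_add_distrib]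

theorem pr_smulr (a : Fn ι) (c : ZMod 2) (f : Fn ι) : pr a (c • f) = c * pr a f := by
  simp only [pr, Pi.smul_apply, smul_eq_mul, Finset.mul_sum]
  exact sum_congr rfl fun z _ => by ring

theorem pr_zeror (a : Fn ι) : pr a 0 = 0 := by
  simp only [pr, Pi.zero_apply, mul_zero, Finset.sum_const_zero]

theorem pr_single (p : Pt ι) (f : Fn ι) : pr (Pi.single p 1) f = f p := by
  unfold pr
  rw [sum_eq_single p]
  · rw [Pi.single_eq_same, one_mul]
  · intro z _ hz
    rw [Pi.single_eq_of_ne hz, zero_mul]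
  · intro h
    exact absurd (mem_univ _) h

theorem mk_eq_iff {d : ℕ} (a b : Fn ι) :
    (Submodule.Quotient.mk a : Qd ι d) = Submodule.Quotient.mk b ↔
      ∀ f ∈ RM ι d, pr a f = pr b f := by
  rw [Submodule.Quotient.eq]
  constructor
  · intro h f hf
    have h1 : pr (a - b) f = 0 := h f hf
    rw [pr_subl] at h1
    exact sub_eq_zero.1 h1
  · intro h f hf
    show pr (a - b) f = 0
    rw [pr_subl, h f hf, sub_self]

theorem mk_rp {d : ℕ} (T : Qd ι d) : (Submodule.Quotient.mk (rp T) : Qd ι d) = T :=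
  Quotient.out_eq T

theorem rp_mk {d : ℕ} (a f : Fn ι) (hf : f ∈ RM ι d) :
    pr (rp (Submodule.Quotient.mk a : Qd ι d)) f = pr a f :=
  (mk_eq_iff _ _).1 (mk_rp _) f hf

theorem rp_add {d : ℕ} (T T' : Qd ι d) (f : Fn ι) (hf : f ∈ RM ι d) :
    pr (rp (T + T')) f = pr (rp T) f + pr (rp T') f := by
  have h1 : T + T' = (Submodule.Quotient.mk (rp T + rp T') : Qd ι d) := by
    rw [Submodule.Quotient.mk_add, mk_rp, mk_rp]
  rw [h1, rp_mk _ _ hf, pr_addl]

theorem fn_two (a : Fn ι) : a + a = 0 := by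
  funext z
  exact CharTwo.add_self_eq_zero (a z)

theorem qd_two {d : ℕ} (T : Qd ι d) : T + T = 0 := by
  have h1 : T + T = (Submodule.Quotient.mk (rp T + rp T) : Qd ι d) := by
    rw [Submodule.Quotient.mk_add, mk_rp]
  rw [h1, fn_two]
  rfl

theorem mk_sum {d : ℕ} {E : Type} (Z : Finset E) (g : E → Fn ι) :
    (Submodule.Quotient.mk (∑ e ∈ Z, g e) : Qd ι d) = ∑ e ∈ Z, Submodule.Quotient.mk (g e) := by
  have h := map_sum (Submodule.mkQ (Vs ι d)) g Z
  exact h

theorem ind_eq (Z : Finset (Pt ι)) : ind Z = ∑ p ∈ Z, (Pi.single p 1 : Fn ι) := by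
  funext z
  rw [Finset.sum_apply]
  unfold ind
  by_cases h : z ∈ Z
  · rw [if_pos h, sum_eq_single z]
    · rw [Pi.single_eq_same]
    · intro p _ hp
      rw [Pi.single_eq_of_ne hp.symm]
    · intro h'
      exact absurd h h'
  · rw [if_neg h]
    symm
    apply sum_eq_zero
    intro p hp
    rw [Pi.single_eq_of_ne]
    rintro rfl
    exact h hp

theorem chn_symmDiff {D d : ℕ} (Z Z' : Finset (Pt ι × Fin D)) :
    chn d (symmDiff Z Z') = chn d Z + chn d Z' := by
  funext i
  rw [Pi.add_apply]
  unfold chn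
  rw [← sum_symmDiff_two qd_two]
  apply sum_congr _ fun _ _ => rfl
  ext e
  simp only [mem_filter, mem_symmDiff]
  tauto

theorem card_monos (n : ℕ) (d : ℕ) (κ : Type) [Fintype κ] [DecidableEq κ]
    (hn : Fintype.card κ = n) :
    Fintype.card {A : Finset κ // A.card ≤ d} ≤ (n + 1) ^ d := by
  have h1 : Fintype.card (Fin d → Option κ) = (n + 1) ^ d := by
    rw [Fintype.card_fun, Fintype.card_option, hn, Fintype.card_fin]
  rw [← h1]
  let F : (Fin d → Option κ) → {A : Finset κ // A.card ≤ d} := fun g =>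
    ⟨univ.biUnion fun j => (g j).toFinset, by
      refine card_biUnion_le.trans ?_
      calc ∑ j : Fin d, ((g j).toFinset).card ≤ ∑ _j : Fin d, 1 := by
            apply sum_le_sum
            intro j _
            cases h : g j with
            | none => simp
            | some x => simp
        _ = d := by simp⟩
  apply Fintype.card_le_of_surjective F
  rintro ⟨A, hA⟩
  refine ⟨fun j => A.toList[(j : ℕ)]?, ?_⟩
  apply Subtype.ext
  show (univ.biUnion fun j : Fin d => (A.toList[(j : ℕ)]?).toFinset) = A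
  ext x
  rw [mem_biUnion]
  constructor
  · rintro ⟨j, _, hj⟩
    rw [Option.mem_toFinset] at hj
    have h2 : A.toList[(j : ℕ)]? = some x := hj
    exact mem_toList.1 (List.mem_of_getElem? h2)
  · intro hx
    obtain ⟨k, hk⟩ := List.mem_iff_getElem?.1 (mem_toList.2 hx)
    have h3 : k < A.toList.length := by
      by_contra h4
      rw [List.getElem?_eq_none (not_lt.1 h4)] at hk
      exact (nomatch hk)
    rw [length_toList] at h3
    refine ⟨⟨k, lt_of_lt_of_le h3 hA⟩, mem_univ _, ?_⟩
    rw [Option.mem_toFinset]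
    exact hk

theorem card_qd (d : ℕ) : Fintype.card (Qd ι d) ≤ 2 ^ ((Fintype.card ι + 1) ^ d) := by
  let F : Qd ι d → ({A : Finset ι // A.card ≤ d} → ZMod 2) := fun T A => pr (rp T) (mon A.1)
  have hF : Function.Injective F := by
    intro T T' h
    rw [← mk_rp T, ← mk_rp T', mk_eq_iff]
    intro f hf
    refine Submodule.span_induction (p := fun f _ => pr (rp T) f = pr (rp T') f) ?_ ?_ ?_ ?_ hf
    · rintro _ ⟨A, hA, rfl⟩
      exact congrFun h ⟨A, hA⟩
    · rw [pr_zeror, pr_zeror]
    · intro x y _ _ hx hy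
      rw [pr_addr, pr_addr, hx, hy]
    · intro c x _ hx
      rw [pr_smulr, pr_smulr, hx]
  have h1 := Fintype.card_le_of_injective F hF
  have h2 : Fintype.card ({A : Finset ι // A.card ≤ d} → ZMod 2) =
      2 ^ Fintype.card {A : Finset ι // A.card ≤ d} := by
    rw [Fintype.card_fun, ZMod.card]
  rw [h2] at h1
  exact h1.trans (Nat.pow_le_pow_right two_pos (card_monos _ d ι rfl))

end

/-- ROW QDF. -/
theorem qdf (dua : DUAStmt) : QDFStmt := by
  intro ι _ _ d
  refine ⟨rp_add, ?_, ?_, qd_two, fun D => chn_symmDiff, ?_, card_qd d⟩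
  · intro p f hf
    unfold ev
    rw [rp_mk _ _ hf, pr_single]
  · intro τ Z hv
    unfold ev
    rw [← mk_sum, ← ind_eq, mk_eq_iff]
    intro f hf
    have h1 := hv f hf
    rw [pr_addl] at h1
    exact CharTwo.add_eq_zero.1 h1
  · intro D Z Z' h hc
    have h0 : chn d (symmDiff Z Z') = 0 := by
      rw [chn_symmDiff, h]
      funext i
      exact qd_two _
    have hcard : (symmDiff Z Z').card < 2 ^ (d + 1) := by
      refine lt_of_le_of_lt ?_ hc
      exact (card_union_le _ _).trans
        (Nat.add_le_add (card_le_card sdiff_subset) (card_le_card sdiff_subset))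
    have hem : ∀ i : Fin D, (symmDiff Z Z').filter (fun e => e.2 = i) = ∅ := by
      intro i
      set W := (symmDiff Z Z').filter (fun e => e.2 = i) with hW
      have h1 : ∑ e ∈ W, ev d e.1 = 0 := congrFun h0 i
      unfold ev at h1
      rw [← mk_sum] at h1
      have h2 : (Submodule.Quotient.mk (∑ e ∈ W, (Pi.single e.1 1 : Fn ι)) : Qd ι d) =
          Submodule.Quotient.mk 0 := h1
      have hv : Van (∑ e ∈ W, (Pi.single e.1 1 : Fn ι)) d := by
        intro f hf
        have h3 := (mk_eq_iff _ _).1 h2 f hf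
        rw [h3]
        simp only [pr, Pi.zero_apply, zero_mul, Finset.sum_const_zero]
      have hz : (∑ e ∈ W, (Pi.single e.1 1 : Fn ι)) = 0 := by
        by_contra hne
        have h4 := dua ι d _ hv hne
        have h5 : (univ.filter fun z => (∑ e ∈ W, (Pi.single e.1 1 : Fn ι)) z ≠ 0) ⊆
            W.image Prod.fst := by
          intro z hz
          rw [mem_filter] at hz
          by_contra h6
          apply hz.2
          rw [Finset.sum_apply]
          apply sum_eq_zero
          intro e he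
          rw [Pi.single_eq_of_ne]
          rintro rfl
          exact h6 (mem_image_of_mem _ he)
        have h6 := (h4.trans (card_le_card h5)).trans (card_image_le.trans (card_filter_le _ _))
        omega
      rw [eq_empty_iff_forall_notMem]
      intro e he
      have h7 := congrFun hz e.1
      rw [Finset.sum_apply, sum_eq_single e] at h7
      · rw [Pi.single_eq_same] at h7
        exact one_ne_zero h7
      · intro e' he' hne
        rw [Pi.single_eq_of_ne]
        intro h8
        apply hne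
        have h9 := (mem_filter.1 he).2
        have h10 := (mem_filter.1 he').2
        exact Prod.ext h8.symm (h10.trans h9.symm)
      · intro h8
        exact absurd he h8
    have hE : symmDiff Z Z' = ∅ := by
      rw [eq_empty_iff_forall_notMem]
      intro e he
      have h1 := hem e.2
      rw [eq_empty_iff_forall_notMem] at h1
      exact h1 e (mem_filter.2 ⟨he, rfl⟩)
    exact symmDiff_eq_bot.1 hE

end Pool.Agent.RHO.H56c
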