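import Pool.Agent.RHO.Stmts3

/-!
# MP_ca8ef3_an, stage 2, row RMB (helper56): basic facts about polynomials over `ZMod 2`
-/

set_option autoImplicit false

namespace Pool.Agent.RHO.H56c

open Finset

theorem z2 (a : ZMod 2) (h : a ≠ 0) : a = 1 := by
  revert h
  revert a
  decide

theorem z2_cases (a : ZMod 2) : a = 0 ∨ a = 1 := by
  revert a
  decide

theorem z2_factor_one {a b : ZMod 2} (h : a = b) : a + b + 1 = 1 := by
  subst h
  revert a
  decide

theorem z2_factor_zero {a b : ZMod 2} (h : a ≠ b) : a + b + 1 = 0 := by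
  revert h
  revert a b
  decide

section

variable {ι : Type}

theorem mon_mul [DecidableEq ι] (A B : Finset ι) : mon A * mon B = mon (A ∪ B) := by
  funext z
  show (∏ i ∈ A, z i) * (∏ i ∈ B, z i) = ∏ i ∈ A ∪ B, z i
  by_cases h : ∃ i ∈ A ∪ B, z i = 0
  · obtain ⟨i, hi, hz⟩ := h
    rw [prod_eq_zero hi hz]
    rcases mem_union.1 hi with h1 | h1
    · rw [prod_eq_zero h1 hz, zero_mul]
    · rw [prod_eq_zero h1 hz, mul_zero]
  · push Not at h
    rw [prod_eq_one fun i hi => z2 _ (h i hi),
      prod_eq_one fun i hi => z2 _ (h i (mem_union_left B hi)),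
      prod_eq_one fun i hi => z2 _ (h i (mem_union_right A hi)), mul_one]

theorem RM_mono {d d' : ℕ} (h : d ≤ d') : RM ι d ≤ RM ι d' := by
  apply Submodule.span_mono
  rintro f ⟨A, hA, rfl⟩
  exact ⟨A, hA.trans h, rfl⟩

theorem mon_mem (A : Finset ι) : mon A ∈ RM ι A.card :=
  Submodule.subset_span ⟨A, le_rfl, rfl⟩

theorem RM_mul [DecidableEq ι] {d e : ℕ} {f g : Fn ι} (hf : f ∈ RM ι d) (hg : g ∈ RM ι e) :
    f * g ∈ RM ι (d + e) := by
  refine Submodule.span_induction (p := fun f _ => f * g ∈ RM ι (d + e)) ?_ ?_ ?_ ?_ hf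
  · rintro _ ⟨A, hA, rfl⟩
    refine Submodule.span_induction (p := fun g _ => mon A * g ∈ RM ι (d + e)) ?_ ?_ ?_ ?_ hg
    · rintro _ ⟨B, hB, rfl⟩
      rw [mon_mul]
      refine RM_mono ?_ (mon_mem _)
      exact (card_union_le A B).trans (Nat.add_le_add hA hB)
    · rw [mul_zero]
      exact Submodule.zero_mem _
    · intro x y _ _ hx hy
      rw [mul_add]
      exact Submodule.add_mem _ hx hy
    · intro c x _ hx
      rw [mul_smul_comm]
      exact Submodule.smul_mem _ c hx
  · rw [zero_mul]
    exact Submodule.zero_mem _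
  · intro x y _ _ hx hy
    rw [add_mul]
    exact Submodule.add_mem _ hx hy
  · intro c x _ hx
    rw [smul_mul_assoc]
    exact Submodule.smul_mem _ c hx

theorem one_mem : (1 : Fn ι) ∈ RM ι 0 := by
  refine Submodule.subset_span ⟨∅, le_rfl, ?_⟩
  funext z
  simp [mon]

theorem coord_mem (i : ι) : (fun z : Pt ι => z i) ∈ RM ι 1 := by
  refine Submodule.subset_span ⟨{i}, by rw [card_singleton], ?_⟩
  funext z
  simp [mon]

theorem const_mem (c : ZMod 2) (d : ℕ) : (fun _ : Pt ι => c) ∈ RM ι d := by
  have h : (fun _ : Pt ι => c) = c • (1 : Fn ι) := by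
    funext z
    simp
  rw [h]
  exact Submodule.smul_mem _ c (RM_mono (Nat.zero_le d) one_mem)

theorem lin_mem [Fintype ι] [DecidableEq ι] (l : Pt ι →ₗ[ZMod 2] ZMod 2) :
    (fun z : Pt ι => l z) ∈ RM ι 1 := by
  have h : (fun z : Pt ι => l z) =
      ∑ i, (l fun j => if i = j then 1 else 0) • (fun z : Pt ι => z i) := by
    funext z
    rw [LinearMap.pi_apply_eq_sum_univ l z, Finset.sum_apply]
    refine sum_congr rfl fun i _ => ?_
    rw [Pi.smul_apply, smul_eq_mul, smul_eq_mul, mul_comm]
  rw [h]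
  exact Submodule.sum_mem _ fun i _ => Submodule.smul_mem _ _ (coord_mem i)

theorem prod_mem [DecidableEq ι] {κ : Type} (S : Finset κ) (f : κ → Fn ι)
    (hf : ∀ j ∈ S, f j ∈ RM ι 1) : (fun z => ∏ j ∈ S, f j z) ∈ RM ι S.card := by
  classical
  induction S using Finset.induction_on with
  | empty =>
    simp only [prod_empty, card_empty]
    exact one_mem
  | insert a S ha ih =>
    have h : (fun z => ∏ j ∈ insert a S, f j z) = (fun z => ∏ j ∈ S, f j z) * f a := by
      funext z
      rw [prod_insert ha, Pi.mul_apply, mul_comm]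
    rw [h, card_insert_of_notMem ha]
    exact RM_mul (ih fun j hj => hf j (mem_insert_of_mem hj)) (hf a (mem_insert_self a S))

end

theorem rmb : RMBStmt := by
  intro ι _ _
  refine ⟨fun d d' h => RM_mono h, fun d e f g hf hg => RM_mul hf hg, mon_mem, one_mem, coord_mem,
    lin_mem, fun B u => ?_, fun h π v => ?_⟩
  · apply prod_mem B (fun i z => z i + u i + 1)
    intro i _
    have h1 : (fun z : Pt ι => z i + u i + 1) =
        (fun z : Pt ι => z i) + (fun _ : Pt ι => u i + 1) := by
      funext z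
      rw [Pi.add_apply, add_assoc]
    rw [h1]
    exact Submodule.add_mem _ (coord_mem i) (const_mem _ _)
  · have h1 : cel π v = fun z => ∏ j ∈ (univ : Finset (Fin h)), (π z j + v j + 1) := by
      funext z
      unfold cel
      by_cases hz : π z = v
      · rw [if_pos hz, prod_eq_one]
        intro j _
        exact z2_factor_one (congrFun hz j)
      · rw [if_neg hz]
        obtain ⟨j, hj⟩ := Function.ne_iff.1 hz
        exact (prod_eq_zero (mem_univ j) (z2_factor_zero hj)).symm
    rw [h1]
    have h2 := prod_mem (ι := ι) (univ : Finset (Fin h)) (fun j z => π z j + v j + 1) ?_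
    · rwa [card_univ, Fintype.card_fin] at h2
    · intro j _
      have h3 : (fun z : Pt ι => π z j + v j + 1) =
          (fun z : Pt ι => ((LinearMap.proj j).comp π : Pt ι →ₗ[ZMod 2] ZMod 2) z) +
            (fun _ : Pt ι => v j + 1) := by
        funext z
        rw [Pi.add_apply, add_assoc]
        rfl
      rw [h3]
      exact Submodule.add_mem _ (lin_mem _) (const_mem _ _)

end Pool.Agent.RHO.H56c
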