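import Pool.Agent.Helper56_RHO3.RMB

/-!
# MP_ca8ef3_an, stage 2, row SMB (helper56): the maps of the graph
-/

set_option autoImplicit false

namespace Pool.Agent.RHO.H56c

open Finset

theorem sq_mem {A t : ℕ} (r : ℕ) (x : Fin A) :
    (fun z : Pt (Fin t × Fin A) => sq z r x) ∈ RM (Fin t × Fin A) 1 := by
  cases r with
  | zero => exact const_mem 1 1
  | succ r =>
    by_cases h : r < t
    · have h1 : (fun z : Pt (Fin t × Fin A) => sq z (r + 1) x) = fun z => z (⟨r, h⟩, x) := by
        funext z
        show (if h : r < t then z (⟨r, h⟩, x) else 0) = _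
        rw [dif_pos h]
      rw [h1]
      exact coord_mem _
    · have h1 : (fun z : Pt (Fin t × Fin A) => sq z (r + 1) x) = fun _ => 0 := by
        funext z
        show (if h : r < t then z (⟨r, h⟩, x) else 0) = _
        rw [dif_neg h]
      rw [h1]
      exact const_mem 0 1

theorem sq_succ {A t : ℕ} (z : Pt (Fin t × Fin A)) {r : ℕ} (h : r < t) :
    sq z (r + 1) = fun x => z (⟨r, h⟩, x) := by
  funext x
  show (if h : r < t then z (⟨r, h⟩, x) else 0) = _
  rw [dif_pos h]

theorem sq_succ' {A t : ℕ} (z : Pt (Fin t × Fin A)) {r : ℕ} (h : ¬ r < t) :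
    sq z (r + 1) = 0 := by
  funext x
  show (if h : r < t then z (⟨r, h⟩, x) else 0) = _
  rw [dif_neg h]
  rfl

theorem smb : SMBStmt := by
  intro A D t M i
  refine ⟨fun z => ⟨rfl, fun r => ?_⟩, ?_, fun j => ?_⟩
  · by_cases h : r < t
    · rw [sq_succ _ h, sq_succ _ h]
      funext x
      rw [Pi.add_apply]
      show z (⟨r, h⟩, x) + (M ⟨r, h⟩ i).mulVec (sq z r) x = _
      unfold xM
      rw [dif_pos h]
    · rw [sq_succ' _ h, sq_succ' _ h]
      unfold xM
      rw [dif_neg h, Matrix.zero_mulVec, add_zero]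
  · rw [← Finite.injective_iff_bijective]
    intro z z' hz
    have h1 : ∀ r, sq z r = sq z' r := by
      intro r
      induction r with
      | zero => rfl
      | succ r ih =>
        by_cases h : r < t
        · rw [sq_succ _ h, sq_succ _ h]
          funext x
          have h2 := congrFun hz (⟨r, h⟩, x)
          have h3 : z (⟨r, h⟩, x) + (M ⟨r, h⟩ i).mulVec (sq z r) x =
              z' (⟨r, h⟩, x) + (M ⟨r, h⟩ i).mulVec (sq z' r) x := h2
          rw [ih] at h3
          exact add_right_cancel h3
        · rw [sq_succ' _ h, sq_succ' _ h]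
    funext x
    have h2 := congrFun (h1 (x.1 + 1)) x.2
    rw [sq_succ z x.1.2, sq_succ z' x.1.2] at h2
    exact h2
  · have h1 : (fun z => sM M i z j) = (fun z : Pt (Fin t × Fin A) => z j) +
        ∑ x, (M j.1 i j.2 x) • (fun z : Pt (Fin t × Fin A) => sq z j.1 x) := by
      funext z
      rw [Pi.add_apply, Finset.sum_apply]
      show z j + ∑ x, M j.1 i j.2 x * sq z j.1 x = _
      congr 1
    rw [h1]
    exact Submodule.add_mem _ (coord_mem j)
      (Submodule.sum_mem _ fun x _ => Submodule.smul_mem _ _ (sq_mem _ x))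

end Pool.Agent.RHO.H56c
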